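import Pool.Agent.helper11.OFP.Spec

/-! # Row ofp:BMS (MP_90e158_lc): the sets `Big m k j` are measurable -/

set_option autoImplicit false

namespace Pool.Agent.OFP

open Pool.Agent.LOF MeasureTheory

theorem BMS_two (S : Set ℝ) (hS : ∀ t ∈ S, 0 < t ∧ t < 1) (k j : ℕ) :
    (∃ p ∈ S, ∃ q ∈ S, p < q ∧ p ∈ Iv k j ∧ q ∈ Iv k j) ↔
      ∃ a b c d : ℚ, (0 < a ∧ a ≤ b ∧ b < c ∧ c ≤ d ∧ d < 1 ∧ ((a : ℝ) ∈ Iv k j) ∧ ((d : ℝ) ∈ Iv k j)) ∧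
        (∃ t ∈ S, (a : ℝ) ≤ t ∧ t ≤ (b : ℝ)) ∧ ∃ t ∈ S, (c : ℝ) ≤ t ∧ t ≤ (d : ℝ) := by
  have h2 : (0 : ℝ) < 2 ^ k := by positivity
  constructor
  · rintro ⟨p, hp, q, hq, hpq, hpI, hqI⟩
    obtain ⟨hp0, hp1⟩ := hS p hp
    obtain ⟨hq0, hq1⟩ := hS q hq
    obtain ⟨hpI1, hpI2⟩ : (j : ℝ) ≤ p * 2 ^ k ∧ p * 2 ^ k < (j : ℝ) + 1 := hpI
    obtain ⟨hqI1, hqI2⟩ : (j : ℝ) ≤ q * 2 ^ k ∧ q * 2 ^ k < (j : ℝ) + 1 := hqI
    -- the lower end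
    obtain ⟨a, ha0, hap, haj⟩ : ∃ a : ℚ, 0 < a ∧ (a : ℝ) ≤ p ∧ (j : ℝ) ≤ (a : ℝ) * 2 ^ k := by
      rcases hpI1.eq_or_lt with h | h
      · have e : p = (((j : ℚ) / 2 ^ k : ℚ) : ℝ) := by
          push_cast
          rw [h, mul_div_assoc, div_self h2.ne', mul_one]
        refine ⟨(j : ℚ) / 2 ^ k, ?_, e.ge, ?_⟩
        · have h3 : (0 : ℝ) < (((j : ℚ) / 2 ^ k : ℚ) : ℝ) := by rw [← e]; exact hp0
          exact_mod_cast h3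
        · rw [← e]
          exact hpI1
      · have h3 : max 0 ((j : ℝ) / 2 ^ k) < p := by
          rw [max_lt_iff, div_lt_iff₀ h2]
          exact ⟨hp0, h⟩
        obtain ⟨a, ha1, ha2⟩ := exists_rat_btwn h3
        refine ⟨a, ?_, ha2.le, ?_⟩
        · have h4 : (0 : ℝ) < a := (le_max_left _ _).trans_lt ha1
          exact_mod_cast h4
        · have h4 : (j : ℝ) / 2 ^ k < a := (le_max_right _ _).trans_lt ha1
          rw [div_lt_iff₀ h2] at h4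
          exact h4.le
    -- the upper end
    obtain ⟨d, hd1, hqd, hdj⟩ : ∃ d : ℚ, d < 1 ∧ q ≤ (d : ℝ) ∧ (d : ℝ) * 2 ^ k < (j : ℝ) + 1 := by
      have h3 : q < min 1 (((j : ℝ) + 1) / 2 ^ k) := by
        rw [lt_min_iff, lt_div_iff₀ h2]
        exact ⟨hq1, hqI2⟩
      obtain ⟨d, hd1, hd2⟩ := exists_rat_btwn h3
      refine ⟨d, ?_, hd1.le, ?_⟩
      · have h4 : (d : ℝ) < 1 := hd2.trans_le (min_le_left _ _)
        exact_mod_cast h4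
      · have h4 : (d : ℝ) < ((j : ℝ) + 1) / 2 ^ k := hd2.trans_le (min_le_right _ _)
        rw [lt_div_iff₀ h2] at h4
        exact h4
    obtain ⟨b, hb1, hb2⟩ := exists_rat_btwn hpq
    obtain ⟨c, hc1, hc2⟩ := exists_rat_btwn hb2
    refine ⟨a, b, c, d, ⟨ha0, ?_, ?_, ?_, hd1, ⟨haj, ?_⟩, ⟨?_, hdj⟩⟩, ⟨p, hp, hap, hb1.le⟩,
      ⟨q, hq, hc2.le, hqd⟩⟩
    · exact_mod_cast (hap.trans hb1.le)
    · exact_mod_cast hc1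
    · exact_mod_cast (hc2.le.trans hqd)
    · exact (mul_le_mul_of_nonneg_right hap h2.le).trans_lt hpI2
    · exact hqI1.trans (mul_le_mul_of_nonneg_right hqd h2.le)
  · rintro ⟨a, b, c, d, ⟨_, _, hbc, _, _, haI, hdI⟩, ⟨t, ht, hat, htb⟩, ⟨u, hu, hcu, hud⟩⟩
    have hbc' : (b : ℝ) < c := by exact_mod_cast hbc
    have htu : t < u := by linarith
    have haI1 : (j : ℝ) ≤ (a : ℝ) * 2 ^ k := haI.1
    have hdI2 : (d : ℝ) * 2 ^ k < (j : ℝ) + 1 := hdI.2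
    have e1 : (a : ℝ) * 2 ^ k ≤ t * 2 ^ k := mul_le_mul_of_nonneg_right hat h2.le
    have e2 : t * 2 ^ k ≤ u * 2 ^ k := mul_le_mul_of_nonneg_right htu.le h2.le
    have e3 : u * 2 ^ k ≤ (d : ℝ) * 2 ^ k := mul_le_mul_of_nonneg_right hud h2.le
    exact ⟨t, ht, u, hu, htu, ⟨by linarith, by linarith⟩, ⟨by linarith, by linarith⟩⟩

theorem BMS_FH (r : LO F) (h : F) : ∀ t ∈ FH r h, 0 < t ∧ t < 1 := fun _ ht => ⟨ht.1, ht.2.1⟩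

theorem BMS_fin (hFMS : FMS_stmt) (hCRD : CRD_stmt) (h : F) (m : ℕ) :
    MeasurableSet {r : LO F | (FH r h).Finite ∧ (FH r h).ncard ≤ m} := by
  have e : {r : LO F | (FH r h).Finite ∧ (FH r h).ncard ≤ m} =
      ⋂ (f : Fin (m + 1) → ℚ), ⋂ (g : Fin (m + 1) → ℚ), {r : LO F |
        (∀ i, 0 < f i ∧ f i ≤ g i ∧ g i < 1) → (∀ i j, i < j → g i < f j) →
          ∃ i, ¬ ∃ t ∈ FH r h, (f i : ℝ) ≤ t ∧ t ≤ (g i : ℝ)} := by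
    ext r
    rw [Set.mem_iInter]
    simp only [Set.mem_iInter]
    exact hCRD (FH r h) m (BMS_FH r h)
  rw [e]
  refine MeasurableSet.iInter fun f => MeasurableSet.iInter fun g => ?_
  by_cases h1 : ∀ i, 0 < f i ∧ f i ≤ g i ∧ g i < 1
  · by_cases h2 : ∀ i j, i < j → g i < f j
    · have e2 : {r : LO F | (∀ i, 0 < f i ∧ f i ≤ g i ∧ g i < 1) → (∀ i j, i < j → g i < f j) →
          ∃ i, ¬ ∃ t ∈ FH r h, (f i : ℝ) ≤ t ∧ t ≤ (g i : ℝ)} =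
          ⋃ i, {r : LO F | ∃ t ∈ FH r h, (f i : ℝ) ≤ t ∧ t ≤ (g i : ℝ)}ᶜ := by
        ext r
        rw [Set.mem_iUnion]
        exact ⟨fun hr => hr h1 h2, fun hr _ _ => hr⟩
      rw [e2]
      refine MeasurableSet.iUnion fun i => (hFMS h (f i) (g i) ?_ ?_).compl
      · exact_mod_cast (h1 i).1
      · exact_mod_cast (h1 i).2.2
    · have e2 : {r : LO F | (∀ i, 0 < f i ∧ f i ≤ g i ∧ g i < 1) → (∀ i j, i < j → g i < f j) →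
          ∃ i, ¬ ∃ t ∈ FH r h, (f i : ℝ) ≤ t ∧ t ≤ (g i : ℝ)} = Set.univ := by
        ext r
        exact ⟨fun _ => trivial, fun _ _ h3 => absurd h3 h2⟩
      rw [e2]
      exact MeasurableSet.univ
  · have e2 : {r : LO F | (∀ i, 0 < f i ∧ f i ≤ g i ∧ g i < 1) → (∀ i j, i < j → g i < f j) →
          ∃ i, ¬ ∃ t ∈ FH r h, (f i : ℝ) ≤ t ∧ t ≤ (g i : ℝ)} = Set.univ := by
        ext r
        exact ⟨fun _ => trivial, fun _ h3 => absurd h3 h1⟩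
    rw [e2]
    exact MeasurableSet.univ

theorem BMS (hFMS : FMS_stmt) (hCRD : CRD_stmt) : BMS_stmt := by
  intro m k j
  have e : Big m k j = ⋃ h : F, {r : LO F | h ≠ 1 ∧ ((FH r h).Finite ∧ (FH r h).ncard ≤ m) ∧
      ∃ p ∈ FH r h, ∃ q ∈ FH r h, p < q ∧ p ∈ Iv k j ∧ q ∈ Iv k j} := by
    ext r
    rw [Set.mem_iUnion]
    constructor
    · rintro ⟨h, h1, h2, h3, h4⟩
      exact ⟨h, h1, ⟨h2, h3⟩, h4⟩
    · rintro ⟨h, h1, ⟨h2, h3⟩, h4⟩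
      exact ⟨h, h1, h2, h3, h4⟩
  rw [e]
  refine MeasurableSet.iUnion fun h => ?_
  by_cases h1 : h = 1
  · have e2 : {r : LO F | h ≠ 1 ∧ ((FH r h).Finite ∧ (FH r h).ncard ≤ m) ∧
      ∃ p ∈ FH r h, ∃ q ∈ FH r h, p < q ∧ p ∈ Iv k j ∧ q ∈ Iv k j} = ∅ := by
      ext r
      exact ⟨fun hr => absurd h1 hr.1, fun hr => absurd hr (Set.notMem_empty _)⟩
    rw [e2]
    exact MeasurableSet.empty
  · have e2 : {r : LO F | h ≠ 1 ∧ ((FH r h).Finite ∧ (FH r h).ncard ≤ m) ∧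
      ∃ p ∈ FH r h, ∃ q ∈ FH r h, p < q ∧ p ∈ Iv k j ∧ q ∈ Iv k j} =
        {r : LO F | (FH r h).Finite ∧ (FH r h).ncard ≤ m} ∩
        ⋃ (a : ℚ), ⋃ (b : ℚ), ⋃ (c : ℚ), ⋃ (d : ℚ), {r : LO F |
          (0 < a ∧ a ≤ b ∧ b < c ∧ c ≤ d ∧ d < 1 ∧ ((a : ℝ) ∈ Iv k j) ∧ ((d : ℝ) ∈ Iv k j)) ∧
        (∃ t ∈ FH r h, (a : ℝ) ≤ t ∧ t ≤ (b : ℝ)) ∧ ∃ t ∈ FH r h, (c : ℝ) ≤ t ∧ t ≤ (d : ℝ)} := by
      ext r
      have h3 := BMS_two (FH r h) (BMS_FH r h) k j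
      constructor
      · rintro ⟨_, h4, h5⟩
        refine ⟨h4, ?_⟩
        simp only [Set.mem_iUnion]
        exact h3.1 h5
      · rintro ⟨h4, h5⟩
        simp only [Set.mem_iUnion] at h5
        exact ⟨h1, h4, h3.2 h5⟩
    rw [e2]
    refine (BMS_fin hFMS hCRD h m).inter ?_
    refine MeasurableSet.iUnion fun a => MeasurableSet.iUnion fun b => MeasurableSet.iUnion fun c =>
      MeasurableSet.iUnion fun d => ?_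
    by_cases h4 : 0 < a ∧ a ≤ b ∧ b < c ∧ c ≤ d ∧ d < 1 ∧ ((a : ℝ) ∈ Iv k j) ∧ ((d : ℝ) ∈ Iv k j)
    · have e3 : {r : LO F |
          (0 < a ∧ a ≤ b ∧ b < c ∧ c ≤ d ∧ d < 1 ∧ ((a : ℝ) ∈ Iv k j) ∧ ((d : ℝ) ∈ Iv k j)) ∧
        (∃ t ∈ FH r h, (a : ℝ) ≤ t ∧ t ≤ (b : ℝ)) ∧ ∃ t ∈ FH r h, (c : ℝ) ≤ t ∧ t ≤ (d : ℝ)} =
          {r : LO F | ∃ t ∈ FH r h, (a : ℝ) ≤ t ∧ t ≤ (b : ℝ)} ∩
          {r : LO F | ∃ t ∈ FH r h, (c : ℝ) ≤ t ∧ t ≤ (d : ℝ)} := by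
        ext r
        exact ⟨fun hr => hr.2, fun hr => ⟨h4, hr⟩⟩
      rw [e3]
      obtain ⟨ha, hab, hbc, hcd, hd, _, _⟩ := h4
      have ha' : (0 : ℝ) < a := by exact_mod_cast ha
      have hb' : (b : ℝ) < 1 := by exact_mod_cast (hbc.trans_le hcd).trans hd
      have hc' : (0 : ℝ) < c := by exact_mod_cast (ha.trans_le hab).trans hbc
      have hd' : (d : ℝ) < 1 := by exact_mod_cast hd
      exact (hFMS h a b ha' hb').inter (hFMS h c d hc' hd')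
    · have e3 : {r : LO F |
          (0 < a ∧ a ≤ b ∧ b < c ∧ c ≤ d ∧ d < 1 ∧ ((a : ℝ) ∈ Iv k j) ∧ ((d : ℝ) ∈ Iv k j)) ∧
        (∃ t ∈ FH r h, (a : ℝ) ≤ t ∧ t ≤ (b : ℝ)) ∧ ∃ t ∈ FH r h, (c : ℝ) ≤ t ∧ t ≤ (d : ℝ)} = ∅ := by
        ext r
        exact ⟨fun hr => absurd hr.1 h4, fun hr => absurd hr (Set.notMem_empty _)⟩
      rw [e3]
      exact MeasurableSet.empty

end Pool.Agent.OFP
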