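import Pool.Agent.helper11.OFP.Spec

/-! # Row ofp:XMS (MP_90e158_lc): measurability of the family of orders -/

set_option autoImplicit false

namespace Pool.Agent.OFP

open Pool.Agent.LOF MeasureTheory

theorem XMS_pth (i : ℕ) : Measurable fun c : ℕ → Bool => pth c i := by
  induction i with
  | zero => exact measurable_const
  | succ i ih =>
    have h : Measurable fun z : ℕ × Bool => 4 * z.1 + (if z.2 = true then 2 else 1) :=
      measurable_of_countable _
    exact h.comp (ih.prodMk (measurable_pi_apply i))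

theorem XMS_seq (q : ℕ → ℝ) (n : ℕ) : Measurable fun c : ℕ → Bool => seq q c n := by
  rcases hz : dec n with ⟨i, j, b⟩
  have h : Measurable fun z : ℕ × Bool =>
      (((if b = z.2 then (if b = true then 2 * z.1 else 2 * z.1 + 1)
        else (if b = true then 4 * z.1 else 4 * z.1 + 3) : ℕ) : ℝ) + q j) /
        2 ^ (if b = z.2 then 2 * i + 1 else 2 * i + 2) := measurable_of_countable _
  have h2 := h.comp ((XMS_pth i).prodMk (measurable_pi_apply i))
  have e : (fun c : ℕ → Bool => seq q c n) = (fun z : ℕ × Bool =>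
      (((if b = z.2 then (if b = true then 2 * z.1 else 2 * z.1 + 1)
        else (if b = true then 4 * z.1 else 4 * z.1 + 3) : ℕ) : ℝ) + q j) /
        2 ^ (if b = z.2 then 2 * i + 1 else 2 * i + 2)) ∘ fun c : ℕ → Bool => (pth c i, c i) := by
    funext c
    simp only [seq, hz, pnt, lev, num, Function.comp]
  rw [e]
  exact h2

theorem XMS : XMS_stmt := by
  intro q s Φ _ hΦ
  refine Measurable.subtype_mk ?_ (h := fun c => (Φ c).2)
  rw [measurable_pi_iff]
  rintro ⟨g, h⟩
  refine measurable_to_bool ?_
  have e : (fun c => (Φ c).1 (g, h)) ⁻¹' {true} = {c | LexLt (seq q c) s g h} := by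
    ext c
    rw [Set.mem_preimage, Set.mem_singleton_iff]
    exact hΦ c g h
  rw [e]
  have hg : ∀ i, Measurable fun c : ℕ → Bool => g.1 (seq q c i) := fun i =>
    (g.1.monotone.measurable).comp (XMS_seq q i)
  have hh : ∀ i, Measurable fun c : ℕ → Bool => h.1 (seq q c i) := fun i =>
    (h.1.monotone.measurable).comp (XMS_seq q i)
  have e2 : {c | LexLt (seq q c) s g h} = ⋃ n, (⋂ i ∈ Finset.range n,
      {c | g.1 (seq q c i) = h.1 (seq q c i)}) ∩ ({c | s n = true ∧ g.1 (seq q c n) < h.1 (seq q c n)} ∪
        {c | s n = false ∧ h.1 (seq q c n) < g.1 (seq q c n)}) := by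
    ext c
    simp only [LexLt, Set.mem_ofPred_eq, Set.mem_iUnion, Set.mem_inter_iff, Set.mem_iInter,
      Set.mem_union, Finset.mem_range]
  rw [e2]
  refine MeasurableSet.iUnion fun n => MeasurableSet.inter ?_ (MeasurableSet.union ?_ ?_)
  · exact Finset.measurableSet_biInter _ fun i _ => measurableSet_eq_fun (hg i) (hh i)
  · exact (MeasurableSet.const _).inter (measurableSet_lt (hg n) (hh n))
  · exact (MeasurableSet.const _).inter (measurableSet_lt (hh n) (hg n))

end Pool.Agent.OFP
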